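import Mathlib
import Pool.Agent.H87.CS.Targets

/-! # MP_cf7d1d_an, module UNI -/

set_option autoImplicit false

namespace Pool.Agent.H41.CS

open Set Topology Filter Pool.Agent.H87.CS

/-- A compact set covered by countably many closed totally disconnected sets is totally
disconnected. -/
theorem td_of_cover {α : Type*} [MetricSpace α] {K : Set α} (hK : IsCompact K)
    (Z : ℕ → Set α) (hZc : ∀ n, IsClosed (Z n)) (hZt : ∀ n, IsTotallyDisconnected (Z n))
    (hcov : K ⊆ ⋃ n, Z n) : IsTotallyDisconnected K := by
  -- it is enough to treat closed preconnected sets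
  have key : ∀ S : Set α, S ⊆ K → IsClosed S → IsPreconnected S → S.Subsingleton := by
    intro S hSK hSc hSp
    by_contra hne
    rw [Set.not_subsingleton_iff] at hne
    obtain ⟨a, ha, b, hb, hab⟩ := hne
    have hScomp : IsCompact S := hK.of_isClosed_subset hSc hSK
    have : CompactSpace S := isCompact_iff_compactSpace.mp hScomp
    have : PreconnectedSpace S := Subtype.preconnectedSpace hSp
    have : Nonempty S := ⟨⟨a, ha⟩⟩
    let f : ℕ → Set S := fun n => Subtype.val ⁻¹' (Z n)
    have hfc : ∀ n, IsClosed (f n) := fun n => (hZc n).preimage continuous_subtype_val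
    have hfU : (⋃ n, f n) = univ := by
      rw [Set.eq_univ_iff_forall]
      intro x
      obtain ⟨n, hn⟩ := Set.mem_iUnion.mp (hcov (hSK x.2))
      exact Set.mem_iUnion.mpr ⟨n, hn⟩
    obtain ⟨n, x, hx⟩ := nonempty_interior_of_iUnion_of_closed hfc hfU
    -- a point different from x
    obtain ⟨y, hy⟩ : ∃ y : S, y ≠ x := by
      by_cases h : (⟨a, ha⟩ : S) = x
      · refine ⟨⟨b, hb⟩, ?_⟩
        rw [← h]
        intro h'
        exact hab (congrArg Subtype.val h').symm
      · exact ⟨_, h⟩
    have hU : IsOpen (interior (f n) ∩ {y}ᶜ) := isOpen_interior.inter isOpen_compl_singleton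
    have hxU : x ∈ interior (f n) ∩ {y}ᶜ := ⟨hx, fun h => hy (by simpa using h.symm)⟩
    obtain ⟨V, hVn, hVc, hVU⟩ := exists_mem_nhds_isClosed_subset (hU.mem_nhds hxU)
    -- the closed neighbourhood V as a space
    have : CompactSpace V := isCompact_iff_compactSpace.mp hVc.isCompact
    have hVt : IsTotallyDisconnected (univ : Set V) := by
      intro A _ hA
      have h1 : IsPreconnected ((fun v : V => (v.1.1 : α)) '' A) :=
        hA.image _ (by fun_prop)
      have h2 : (fun v : V => (v.1.1 : α)) '' A ⊆ Z n := by
        rintro _ ⟨v, _, rfl⟩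
        have h5 : (v : S) ∈ f n := interior_subset (hVU v.2).1
        exact h5
      have h3 := hZt n _ h2 h1
      intro u hu v hv
      have := h3 ⟨u, hu, rfl⟩ ⟨v, hv, rfl⟩
      exact Subtype.ext (Subtype.ext this)
    have : TotallyDisconnectedSpace V := ⟨hVt⟩
    have hxV : x ∈ V := mem_of_mem_nhds hVn
    have hO : IsOpen (Subtype.val ⁻¹' (interior V) : Set V) :=
      isOpen_interior.preimage continuous_subtype_val
    obtain ⟨C, hC, hxC, hCO⟩ := compact_exists_isClopen_in_isOpen hO
      (show (⟨x, hxV⟩ : V) ∈ (Subtype.val ⁻¹' (interior V) : Set V) from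
        mem_interior_iff_mem_nhds.mpr hVn)
    -- the image of C in S
    have hcl : IsClosed (Subtype.val '' C : Set S) :=
      hVc.isClosedEmbedding_subtypeVal.isClosedMap _ hC.isClosed
    have hop : IsOpen (Subtype.val '' C : Set S) := by
      obtain ⟨O, hOo, hOC⟩ := isOpen_induced_iff.mp hC.isOpen
      have : (Subtype.val '' C : Set S) = O ∩ interior V := by
        ext z
        constructor
        · rintro ⟨v, hv, rfl⟩
          refine ⟨?_, hCO hv⟩
          rw [← hOC] at hv
          exact hv
        · rintro ⟨hz1, hz2⟩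
          refine ⟨⟨z, interior_subset hz2⟩, ?_, rfl⟩
          rw [← hOC]
          exact hz1
      rw [this]
      exact hOo.inter isOpen_interior
    have hclopen : IsClopen (Subtype.val '' C : Set S) := ⟨hcl, hop⟩
    rcases isClopen_iff.mp hclopen with h | h
    · have : x ∈ (Subtype.val '' C : Set S) := ⟨_, hxC, rfl⟩
      rw [h] at this
      exact this
    · have : y ∈ (Subtype.val '' C : Set S) := by rw [h]; trivial
      obtain ⟨v, _, hv⟩ := this
      have := (hVU v.2).2
      rw [hv] at this
      exact this rfl
  intro S hSK hSp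
  exact (key (closure S) (closure_minimal hSK hK.isClosed) isClosed_closure hSp.closure).anti
    subset_closure

theorem uni : T_uni := by
  intro X Y hX hXt hY hYt hacc
  have hcompact : IsCompact (X ∪ ⋃ k, Y k) := by
    apply Metric.isCompact_of_isClosed_isBounded
    · rw [← isOpen_compl_iff, Metric.isOpen_iff]
      intro z hz
      have hzX : z ∈ Xᶜ := fun h => hz (Or.inl h)
      obtain ⟨δ, hδ, hδX⟩ := Metric.isOpen_iff.mp hX.isClosed.isOpen_compl z hzX
      obtain ⟨N, hN⟩ := hacc (δ / 2) (by positivity)
      have hfin : IsClosed (⋃ k ∈ Finset.range N, Y k) :=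
        (Finset.range N).finite_toSet.isClosed_biUnion fun k _ => (hY k).isClosed
      have hzf : z ∈ (⋃ k ∈ Finset.range N, Y k)ᶜ := by
        intro h
        simp only [Set.mem_iUnion] at h
        obtain ⟨k, _, hk⟩ := h
        exact hz (Or.inr (Set.mem_iUnion.mpr ⟨k, hk⟩))
      obtain ⟨η, hη, hηf⟩ := Metric.isOpen_iff.mp hfin.isOpen_compl z hzf
      refine ⟨min (δ / 2) η, by positivity, ?_⟩
      intro w hw hwK
      rcases hwK with hwX | hwY
      · refine hδX ?_ hwX
        refine Metric.ball_subset_ball ?_ hw
        exact (min_le_left _ _).trans (by linarith)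
      · obtain ⟨k, hk⟩ := Set.mem_iUnion.mp hwY
        by_cases hkN : k < N
        · refine hηf (Metric.ball_subset_ball (min_le_right _ _) hw) ?_
          simp only [Set.mem_iUnion]
          exact ⟨k, by simpa using hkN, hk⟩
        · obtain ⟨x, hx, hwx⟩ := hN k (not_lt.mp hkN) w hk
          refine hδX ?_ hx
          have h1 : dist w z < δ / 2 := lt_of_lt_of_le hw (min_le_left _ _)
          have := dist_triangle x w z
          rw [Metric.mem_ball]
          rw [dist_comm x w] at this
          linarith
    · obtain ⟨N, hN⟩ := hacc 1 one_pos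
      have hb1 : Bornology.IsBounded (⋃ k ∈ Finset.range N, Y k) :=
        (Bornology.isBounded_biUnion_finset _).mpr fun k _ => (hY k).isBounded
      have hb2 : Bornology.IsBounded (Metric.thickening 1 X) := hX.isBounded.thickening
      refine (hX.isBounded.union (hb1.union hb2)).subset ?_
      rintro w (hw | hw)
      · exact Or.inl hw
      · obtain ⟨k, hk⟩ := Set.mem_iUnion.mp hw
        by_cases hkN : k < N
        · refine Or.inr (Or.inl ?_)
          simp only [Set.mem_iUnion]
          exact ⟨k, by simpa using hkN, hk⟩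
        · obtain ⟨x, hx, hwx⟩ := hN k (not_lt.mp hkN) w hk
          exact Or.inr (Or.inr (Metric.mem_thickening_iff.mpr ⟨x, hx, hwx⟩))
  refine ⟨hcompact, ?_⟩
  refine td_of_cover hcompact (fun n => Nat.casesOn n X Y) ?_ ?_ ?_
  · intro n
    cases n with
    | zero => exact hX.isClosed
    | succ n => exact (hY n).isClosed
  · intro n
    cases n with
    | zero => exact hXt
    | succ n => exact hYt n
  · rintro w (hw | hw)
    · exact Set.mem_iUnion.mpr ⟨0, hw⟩
    · obtain ⟨k, hk⟩ := Set.mem_iUnion.mp hw
      exact Set.mem_iUnion.mpr ⟨k + 1, hk⟩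

end Pool.Agent.H41.CS
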